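import Pool.Agent.Helper478_Lit.CP

/-!
# The complexity of the digits of square roots

Let `g` be a real function which is analytic at `0` and let `β_n = n ^ θ g (n ^ (-s))`, where
`t ^ θ g (t ^ (-s))` is not a polynomial for large `t`; for instance `β_n = √n` (see `sqrt_family`),
`√(2 n ^ 2 + 1)`, `π / n`. For almost all `n` in every short interval `(N, N + N ^ ρ]` we determine the number
`D (l)` of the different words among the `K` words of `l` digits (base `b`, for instance `10`) which stand in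
`β_n` after the places `u < i ≤ u + K`: all `b ^ l` words occur if `b ^ l ≤ K ^ (1 - ε)`; if
`b ^ l ≥ K ^ (1 + ε)`, then `D (l) = K (1 + O (K ^ (-ε) + K ^ (ε - 1)))`; if `b ^ l ≥ K ^ (2 + ε)`, the `K` words are
different; and `D (l) ≥ min (b ^ l, K) / 5` always. The windows may lie anywhere between the places
`C log N / log b` and `(log N) ^ (1 + γ) / log b` and consist of at least `(log N) ^ δ` places.

So up to `K ^ (± ε)` the complexity is that of a random sequence. In particular each of the ten digits occurs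
in each such window of the decimal expansion of `√n`.

Proof. A large deviation bound for the number of hits of an arc (for the first statement) and the
pair correlations of the points `b ^ i β_n` mod 1 (for the others), both from a bound for
exponential sums over `n` in short intervals with very large frequency (Vinogradov's mean value theorem with
growing degree).
-/

set_option autoImplicit false

open Filter Topology

namespace Pool.Agent.Results.MP_175f55_nt.ComplexityProfile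

/-- the `l` digits of `y` in base `b` at the places `i + 1, …, i + l`, read as a number in `[0, b ^ l)` -/
noncomputable def word (b l : ℕ) (y : ℝ) (i : ℕ) : ℤ := ⌊y * (b : ℝ) ^ (i + l)⌋ % (b : ℤ) ^ l

/-- the number of the different words of `l` digits of `y` after the places `u < i ≤ u + K` -/
noncomputable def D (b u K l : ℕ) (y : ℝ) : ℕ := {v : ℤ | ∃ i : ℕ, u < i ∧ i ≤ u + K ∧ word b l y i = v}.ncard

/-- the complexity profile of the window `(u, u + K]` -/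
def Profile (b u K : ℕ) (ε y : ℝ) : Prop := ∀ l : ℕ, 1 ≤ l →
  ((b : ℝ) ^ l ≤ (K : ℝ) ^ (1 - ε) → D b u K l y = b ^ l) ∧
  ((K : ℝ) - 3 * K ^ 2 / (b : ℝ) ^ l - 3 * (K : ℝ) ^ ε ≤ D b u K l y) ∧
  (min ((b : ℝ) ^ l) K ≤ 5 * D b u K l y) ∧
  ((K : ℝ) ^ (2 + ε) ≤ (b : ℝ) ^ l → D b u K l y = K)

lemma D_eq (b u K l : ℕ) (y : ℝ) :
    D b u K l y = ((Finset.Ioc u (u + K)).image (Pool.Agent.Helper478.Lit.wd b l y)).card := by
  rw [D, ← Set.ncard_coe_finset]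
  congr 1
  ext v
  simp only [Set.mem_setOf_eq, Finset.coe_image, Set.mem_image, Finset.mem_coe, Finset.mem_Ioc]
  constructor
  · rintro ⟨i, h1, h2, h3⟩
    exact ⟨i, ⟨h1, h2⟩, h3⟩
  · rintro ⟨i, ⟨h1, h2⟩, h3⟩
    exact ⟨i, h1, h2, h3⟩

theorem result : ∀ ε : ℝ, 0 < ε → ε < 1 → ∃ γ : ℝ, 0 < γ ∧ ∀ (θ s : ℝ), 0 < s → s ≤ 1 →
    ∀ g : ℝ → ℝ, AnalyticAt ℝ g 0 →
    (¬ ∃ P : Polynomial ℝ, ∀ᶠ t : ℝ in atTop, t ^ θ * g (t ^ (-s)) = P.eval t) →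
    ∀ ρ : ℝ, 0 < ρ → ρ ≤ 1 → ∃ C : ℝ, ∀ δ : ℝ, 0 < δ → δ < 1 → ∃ κ : ℝ, 0 < κ ∧ ∃ N₀ : ℕ,
      ∀ (N M b u K : ℕ), N₀ ≤ N → (N : ℝ) ^ ρ ≤ M → M ≤ N → 2 ≤ b → Real.log b ≤ (Real.log N) ^ κ →
      C * Real.log N ≤ u * Real.log b → ((u : ℝ) + K) * Real.log b ≤ (Real.log N) ^ (1 + γ) →
      (Real.log N) ^ δ ≤ K →
      (({n : ℕ | N < n ∧ n ≤ N + M ∧
        ¬ Profile b u K ε ((n : ℝ) ^ θ * g ((n : ℝ) ^ (-s)))}.ncard : ℕ) : ℝ) ≤
        M * (K : ℝ) ^ (-(ε / 64)) := by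
  classical
  intro ε hε0 hε1
  obtain ⟨γ₁, hγ₁, hpc⟩ := Pool.Agent.Helper478.Lit.pc
  obtain ⟨γ₂, hγ₂, hsa⟩ := Pool.Agent.Helper478.Lit.sa (ε / 4) (by positivity) (by linarith)
  obtain ⟨Kp, hKp⟩ := Pool.Agent.Helper478.Lit.profile ε hε0 hε1
  obtain ⟨γ, hγ⟩ : ∃ γ : ℝ, γ = min (min γ₁ γ₂) (1 / 2) := ⟨_, rfl⟩
  have hγ0 : 0 < γ := by rw [hγ]; exact lt_min (lt_min hγ₁ hγ₂) (by norm_num)
  have hγle1 : γ ≤ γ₁ := by rw [hγ]; exact (min_le_left _ _).trans (min_le_left _ _)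
  have hγle2 : γ ≤ γ₂ := by rw [hγ]; exact (min_le_left _ _).trans (min_le_right _ _)
  have hγle3 : γ ≤ 1 / 2 := by rw [hγ]; exact min_le_right _ _
  refine ⟨γ, hγ0, ?_⟩
  intro θ s hs0 hs1 g hg hpoly ρ hρ0 hρ1
  obtain ⟨C₁, hC₁⟩ := hpc θ s hs0 hs1 g hg hpoly ρ hρ0 hρ1
  obtain ⟨C₂, hC₂⟩ := hsa θ s hs0 hs1 g hg hpoly ρ hρ0 hρ1
  refine ⟨max C₁ C₂, ?_⟩
  intro δ hδ0 hδ1
  obtain ⟨N₁, K₁, h1⟩ := hC₁ ε hε0 hε1
  obtain ⟨κ, hκ0, N₂, h2⟩ := hC₂ δ hδ0 hδ1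
  refine ⟨κ, hκ0, ?_⟩
  -- eventual inequalities
  have evK : ∀ᶠ y : ℝ in atTop, 2 * y ^ (-(ε / 32)) ≤ y ^ (-(ε / 64)) :=
    Pool.Agent.Helper478.Surds.ev_pow _ _ _ (by linarith)
  have hid : Tendsto (fun N : ℕ => (N : ℝ)) atTop atTop := tendsto_natCast_atTop_atTop
  obtain ⟨K₂, hK₂⟩ := eventually_atTop.1 (hid.eventually evK)
  obtain ⟨K₀, hK₀⟩ : ∃ K₀ : ℕ, K₀ = max (max K₁ K₂) (max Kp 1) := ⟨_, rfl⟩
  have ev1 : ∀ᶠ y : ℝ in atTop, (K₀ : ℝ) * y ^ (0 : ℝ) ≤ y ^ δ :=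
    Pool.Agent.Helper478.Surds.ev_pow _ _ _ (by linarith)
  have ev2 : ∀ᶠ y : ℝ in atTop, 2 * y ^ (1 + γ) ≤ y ^ (2 : ℝ) :=
    Pool.Agent.Helper478.Surds.ev_pow _ _ _ (by linarith)
  have ev3 := Pool.Agent.Helper478.Lit.ev_log 2 κ hκ0
  have hlog : Tendsto (fun N : ℕ => Real.log N) atTop atTop :=
    Real.tendsto_log_atTop.comp tendsto_natCast_atTop_atTop
  obtain ⟨N₀, hN₀⟩ := eventually_atTop.1 ((hlog.eventually ((ev1.and ev2).and
    (ev3.and (eventually_ge_atTop 1)))).and (eventually_ge_atTop (max N₁ N₂)))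
  refine ⟨N₀, ?_⟩
  intro N M b u K hN hM1 hM2 hb hbκ hu huK hδK
  obtain ⟨⟨⟨q1, q2⟩, q3, q4⟩, q5⟩ := hN₀ N hN
  obtain ⟨y, hy⟩ : ∃ y : ℝ, y = Real.log N := ⟨_, rfl⟩
  rw [← hy] at q1 q2 q3 q4 hbκ hu huK hδK
  rw [Real.rpow_zero, mul_one] at q1
  rw [Real.rpow_two] at q2
  have hy0 : 0 < y := by linarith
  have hKK₀ : K₀ ≤ K := by exact_mod_cast q1.trans hδK
  have hKK₁ : K₁ ≤ K := le_trans (by rw [hK₀]; exact (le_max_left _ _).trans (le_max_left _ _)) hKK₀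
  have hKK₂ : K₂ ≤ K := le_trans (by rw [hK₀]; exact (le_max_right _ _).trans (le_max_left _ _)) hKK₀
  have hKKp : Kp ≤ K := le_trans (by rw [hK₀]; exact (le_max_left _ _).trans (le_max_right _ _)) hKK₀
  have hK1 : 1 ≤ K := le_trans (by rw [hK₀]; exact (le_max_right _ _).trans (le_max_right _ _)) hKK₀
  have hk1 : (1 : ℝ) ≤ K := by exact_mod_cast hK1
  have hk0 : (0 : ℝ) < K := by linarith
  have hM0 : (0 : ℝ) ≤ M := Nat.cast_nonneg M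
  have hp1 : y ^ (1 + γ) ≤ y ^ (1 + γ₁) := Real.rpow_le_rpow_of_exponent_le q4 (by linarith)
  have hp2 : y ^ (1 + γ) ≤ y ^ (1 + γ₂) := Real.rpow_le_rpow_of_exponent_le q4 (by linarith)
  have hc1 : C₁ * y ≤ u * Real.log b :=
    (mul_le_mul_of_nonneg_right (le_max_left _ _) hy0.le).trans hu
  have hc2 : C₂ * y ≤ u * Real.log b :=
    (mul_le_mul_of_nonneg_right (le_max_right _ _) hy0.le).trans hu
  have e1 := h1 N M b u K ((le_max_left _ _).trans q5) hM1 hM2 hb (by rw [← hy]; exact hc1)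
    (by rw [← hy]; exact huK.trans hp1) hKK₁
  have e2 := h2 N M ((le_max_right _ _).trans q5) hM1 hM2
  rw [← hy] at e2
  -- the inclusion
  obtain ⟨F1, hF1⟩ : ∃ F1 : Finset ℕ, F1 = (Finset.Ioc 0 M).filter fun n : ℕ =>
    ¬ ((∀ δ : ℝ, (K : ℝ) ^ (-2 + ε) ≤ δ → δ ≤ 1 / 2 →
        |(Pool.Agent.Helper478.Lit.Xlt b K δ ((b : ℝ) ^ (u + 1) *
          (((N : ℝ) + n) ^ θ * g (((N : ℝ) + n) ^ (-s)))) : ℝ) -
          2 * δ * K ^ 2| ≤ (K : ℝ) ^ (-(ε / 32)) * (δ * K ^ 2)) ∧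
        Pool.Agent.Helper478.Lit.Xlt b K ((K : ℝ) ^ (-2 - ε)) ((b : ℝ) ^ (u + 1) *
          (((N : ℝ) + n) ^ θ * g (((N : ℝ) + n) ^ (-s)))) = 0) := ⟨_, rfl⟩
  obtain ⟨F2, hF2⟩ : ∃ F2 : Finset ℕ, F2 = (Finset.Ioc 0 M).filter fun n : ℕ =>
    ∃ b u K : ℕ, 2 ≤ b ∧ Real.log b ≤ y ^ κ ∧
        C₂ * y ≤ u * Real.log b ∧ ((u : ℝ) + K) * Real.log b ≤ y ^ (1 + γ₂) ∧
        y ^ δ ≤ K ∧ ¬ ∀ α₁ α₂ : ℝ, 0 ≤ α₁ → α₁ < α₂ → α₂ ≤ 1 →
          |Pool.Agent.Helper478.Lit.cnt b u K α₁ α₂ (((N : ℝ) + n) ^ θ * g (((N : ℝ) + n) ^ (-s))) -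
            K * (α₂ - α₁)| ≤ (K : ℝ) ^ (ε / 4) * (1 + √(K * (α₂ - α₁))) := ⟨_, rfl⟩
  rw [← hF1] at e1
  rw [← hF2] at e2
  have hsub : {n : ℕ | N < n ∧ n ≤ N + M ∧
      ¬ Profile b u K ε ((n : ℝ) ^ θ * g ((n : ℝ) ^ (-s)))} ⊆
      (((F1 ∪ F2).image fun n => N + n : Finset ℕ) : Set ℕ) := by
    rintro n ⟨a1, a2, a3⟩
    rw [Finset.mem_coe, Finset.mem_image]
    refine ⟨n - N, ?_, by omega⟩
    have e3 : (N : ℝ) + ((n - N : ℕ) : ℝ) = n := by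
      rw [Nat.cast_sub a1.le]; ring
    have hIoc : n - N ∈ Finset.Ioc 0 M := by rw [Finset.mem_Ioc]; omega
    by_contra hcon
    rw [Finset.mem_union, not_or] at hcon
    obtain ⟨c1, c2⟩ := hcon
    rw [hF1, Finset.mem_filter, e3, not_and, not_not] at c1
    rw [hF2, Finset.mem_filter, e3, not_and] at c2
    obtain ⟨d1, d2⟩ := c1 hIoc
    have d3 := c2 hIoc
    push Not at d3
    have d4 := d3 b u K hb hbκ hc2 (huK.trans hp2) hδK
    have hprof := hKp b u K ((n : ℝ) ^ θ * g ((n : ℝ) ^ (-s))) hKKp hb d1 d2 d4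
    apply a3
    intro l hl
    obtain ⟨r1, r2, r3, r4⟩ := hprof l
    rw [← D_eq] at r1 r2 r3 r4
    exact ⟨r1, r2 hl, r3 hl, r4⟩
  have hcard : (({n : ℕ | N < n ∧ n ≤ N + M ∧
      ¬ Profile b u K ε ((n : ℝ) ^ θ * g ((n : ℝ) ^ (-s)))}.ncard : ℕ) : ℝ) ≤ (F1.card : ℝ) + F2.card := by
    have h3 := Set.ncard_le_ncard hsub (Finset.finite_toSet _)
    rw [Set.ncard_coe_finset] at h3
    have h4 := h3.trans (Finset.card_image_le.trans (Finset.card_union_le F1 F2))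
    exact_mod_cast h4
  have hKy2 : (K : ℝ) ≤ y ^ 2 := by
    have hlogb : 1 / 2 ≤ Real.log b := by
      have hb2' : (2 : ℝ) ≤ b := by exact_mod_cast hb
      have h1 := Real.log_le_log (by norm_num) hb2'
      linarith [Real.log_two_gt_d9]
    have hu0 : (0 : ℝ) ≤ u := Nat.cast_nonneg u
    have h3 : (K : ℝ) * (1 / 2) ≤ (u + K) * Real.log b := by gcongr; linarith
    linarith
  have hexp : Real.exp (-y ^ κ) ≤ (K : ℝ) ^ (-(ε / 32)) := by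
    rw [Real.rpow_def_of_pos hk0]
    apply Real.exp_le_exp.2
    have h3 : Real.log K ≤ 2 * Real.log y := by
      have := Real.log_le_log hk0 hKy2
      rw [Real.log_pow] at this; push_cast at this; exact this
    have h4 : 0 ≤ Real.log K := Real.log_nonneg hk1
    nlinarith
  have h5 : (M : ℝ) * Real.exp (-y ^ κ) ≤ M * (K : ℝ) ^ (-(ε / 32)) :=
    mul_le_mul_of_nonneg_left hexp hM0
  have h6 := mul_le_mul_of_nonneg_left (hK₂ K hKK₂) hM0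
  linarith

/-- Example: `β_n = √n` satisfies the hypotheses of `result` (`θ = 1 / 2`, `s = 1`, `g = 1`). -/
theorem sqrt_family : AnalyticAt ℝ (fun _ : ℝ => (1 : ℝ)) 0 ∧
    ¬ ∃ P : Polynomial ℝ, ∀ᶠ t : ℝ in atTop, t ^ (1 / 2 : ℝ) * 1 = P.eval t := by
  refine ⟨analyticAt_const, ?_⟩
  rintro ⟨P, hP⟩
  have h1 : ∀ᶠ t : ℝ in atTop, (P ^ 2).eval t = (Polynomial.X : Polynomial ℝ).eval t := by
    filter_upwards [hP, eventually_ge_atTop 0] with t ht ht0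
    rw [Polynomial.eval_pow, ← ht, mul_one, ← Real.sqrt_eq_rpow, Real.sq_sqrt ht0, Polynomial.eval_X]
  obtain ⟨t₀, ht₀⟩ := eventually_atTop.1 h1
  have h2 : P ^ 2 = Polynomial.X :=
    Polynomial.eq_of_infinite_eval_eq _ _ ((Set.Ici_infinite t₀).mono fun t ht => ht₀ t ht)
  have h3 := congrArg Polynomial.natDegree h2
  rw [Polynomial.natDegree_pow, Polynomial.natDegree_X] at h3
  omega

end Pool.Agent.Results.MP_175f55_nt.ComplexityProfile
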